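import Pool.Agent.Helper52.UN.Act

/-!
Block LC: in a simply laced Lie algebra of operators, whose root vectors square to zero and in
which orthogonal roots are separated by weights, every element of square zero has the rank of
a root vector.
-/

open Module LieModule LieAlgebra LieAlgebra.IsKilling

attribute [local instance 100] LieRing.ofAssociativeRing

set_option linter.unusedSectionVars false

namespace UN.H52

open MTP MTP.MF Pool.Agent.Helper54.MT

variable {K : Type*} [Field K] [CharZero K] [IsAlgClosed K] {V : Type*} [AddCommGroup V]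
  [Module K V] [FiniteDimensional K V]
  {L : Type*} [LieRing L] [LieAlgebra K L] [FiniteDimensional K L] [IsKilling K L]
  {H : LieSubalgebra K L} [H.IsCartanSubalgebra]
  [LieRingModule L V] [LieModule K L V] {I : Type*} [Fintype I] {B : WB (V := V) H I}

variable (B) in
/-- An operator without component at a root. -/
def Van (z : Module.End K V) (γ : H.root) : Prop := ∀ i j, Rel B γ i j → en B z i j = 0

namespace Hy

variable (hy : Hy B)
include hy

lemma van_of (z : L) {γ : H.root} {i j : I} (h : Rel B γ i j)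
    (h0 : en B (toEnd K L V z) i j = 0) : Van B (toEnd K L V z) γ := by
  obtain ⟨e, f, ht⟩ := hy.exists_Tri γ
  obtain ⟨c, -, hc⟩ := hy.comp ht z
  have hc0 : c = 0 := by
    have h1 := hc i j h
    rw [h0] at h1
    exact (mul_eq_zero.mp h1.symm).resolve_right (hy.en_ne ht h)
  intro i' j' h'
  rw [hc i' j' h', hc0, zero_mul]

lemma F_ne {α : H.root} {e f : L} (ht : Tri V α e f) : toEnd K L V f ≠ 0 := by
  intro h
  apply ht.e0
  apply hy.faith
  rw [← ht.efe, h, mul_zero, zero_mul]

theorem zero_of (hQ : ∀ α β : H.root, pr α β = 0 → ∃ i, hy.wz i α = 1 ∧ hy.wz i β = -1)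
    {α : H.root} {e f : L} (ht : Tri V α e f) {z u : L}
    (hzf : toEnd K L V z * toEnd K L V f = 0) (hfz : toEnd K L V f * toEnd K L V z = 0)
    (hzz : toEnd K L V z * toEnd K L V z = 0) (huz : toEnd K L V u * toEnd K L V z = 0)
    (hzu : toEnd K L V z * toEnd K L V u = 0)
    (hfuf : toEnd K L V f * toEnd K L V u * toEnd K L V f = toEnd K L V f) :
    toEnd K L V z = 0 := by
  classical
  have hU : ∀ i j, Rel B α i j → en B (toEnd K L V u) i j ≠ 0 := by
    intro i j hij
    obtain ⟨d, hd, hU⟩ := hy.comp ht u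
    have hd1 : d = 1 := by
      rw [hfuf] at hd
      have h1 : (1 - d) • toEnd K L V f = 0 := by
        rw [sub_smul, one_smul, ← hd, sub_self]
      have h2 := (smul_eq_zero.mp h1).resolve_right (hy.F_ne ht)
      linear_combination -h2
    rw [hU i j hij, hd1, one_mul]
    exact hy.en_ne ht hij
  have z1 : ∀ i j, hy.wz i α = -1 → en B (toEnd K L V z) i j = 0 := by
    intro i j hi
    have h1 : toEnd K L V z (B.v i) = 0 := by
      rw [← hy.fe ht hi, ← Module.End.mul_apply, hzf, LinearMap.zero_apply]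
    rw [en, h1, map_zero, Finsupp.zero_apply]
  have z2 : ∀ i j, hy.wz j α = 1 → en B (toEnd K L V z) i j = 0 := by
    intro i j hj
    have h1 : (B.v.coord j) ∘ₗ (toEnd K L V e) ∘ₗ (toEnd K L V f) = B.v.coord j := by
      apply B.v.ext
      intro l
      rw [LinearMap.comp_apply, LinearMap.comp_apply]
      by_cases hl : hy.wz l α = 1
      · rw [hy.ef ht hl]
      · rw [hy.act_zero ht.hf (by rw [hy.wz_ng]; omega), map_zero, map_zero, Basis.coord_apply,
          Basis.repr_self, Finsupp.single_eq_of_ne]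
        rintro rfl
        exact hl hj
    have h2 : en B (toEnd K L V z) i j = B.v.coord j (toEnd K L V z (B.v i)) := rfl
    have h3 : toEnd K L V f (toEnd K L V z (B.v i)) = 0 := LinearMap.congr_fun hfz (B.v i)
    rw [h2, ← h1, LinearMap.comp_apply, LinearMap.comp_apply, h3, map_zero, map_zero]
  have v1 : ∀ γ : H.root, 0 ≤ pr γ α → Van B (toEnd K L V z) γ := by
    intro γ hγ
    rcases hy.pr_mem γ α with h | h | h | h | h
    · omega
    · omega
    · obtain ⟨i, hi1, hi2⟩ := hQ (ng α) γ (by rw [pr_ng_left, pr_zero h, neg_zero])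
      rw [hy.wz_ng] at hi1
      obtain ⟨j, hj⟩ := hy.exRel hi2
      exact hy.van_of z hj (z1 i j (by omega))
    · obtain ⟨i, hi⟩ := hy.exists_neg ((rootSystem H).reflectionPerm α γ)
      rw [hy.wz_refl, hy.pr_symm α γ, h] at hi
      have m1 := hy.wz_mem i γ
      have m2 := hy.wz_mem i α
      have hc : (hy.wz i γ = -1 ∧ hy.wz i α = 0) ∨ (hy.wz i γ = 0 ∧ hy.wz i α = 1) := by omega
      rcases hc with ⟨h1, h2⟩ | ⟨h1, h2⟩
      · obtain ⟨j, hj⟩ := hy.exRel h1
        refine hy.van_of z hj (z2 i j ?_)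
        rw [hy.rel_wz hj, h, h2]; norm_num
      · obtain ⟨k, hk⟩ := hy.exRel' h2
        have h3 := hy.rel_wz hk γ
        rw [hy.pr_symm α γ, h, h1] at h3
        obtain ⟨j, hj⟩ := hy.exRel (α := γ) (i := k) (by omega)
        exact hy.van_of z hj (z1 k j (hy.rel_self hk).1)
    · obtain ⟨i, hi⟩ := hy.exists_neg α
      obtain ⟨j, hj⟩ := hy.exRel hi
      rw [hy.root_two h]
      exact hy.van_of z hj (z1 i j hi)
  have vd : ∀ i, en B (toEnd K L V z) i i = 0 := by
    intro i
    have h1 : en B (toEnd K L V z * toEnd K L V z) i i = 0 := by rw [hzz, en_zero]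
    rw [en_mul, Finset.sum_eq_single i] at h1
    · exact mul_self_eq_zero.mp h1
    · intro k _ hk
      by_contra hne
      have h2 : en B (toEnd K L V z) i k ≠ 0 := fun h => hne (by rw [h, zero_mul])
      have h3 : en B (toEnd K L V z) k i ≠ 0 := fun h => hne (by rw [h, mul_zero])
      obtain ⟨γ, hγ⟩ := hy.support z (Ne.symm hk) h2
      obtain ⟨γ', hγ'⟩ := hy.support z hk h3
      have r1 := hy.rel_wz hγ α
      have r2 := hy.rel_wz hγ' α
      rcases le_or_gt 0 (pr γ α) with h | h
      · exact h2 (v1 γ h i k hγ)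
      · exact h3 (v1 γ' (by omega) k i hγ')
    · intro h; exact absurd (Finset.mem_univ _) h
  have zk : ∀ i k, en B (toEnd K L V z) i k ≠ 0 → ∃ δ : H.root, Rel B δ i k ∧ pr δ α < 0 := by
    intro i k h
    have hik : i ≠ k := by rintro rfl; exact h (vd i)
    obtain ⟨γ, hγ⟩ := hy.support z hik h
    refine ⟨γ, hγ, ?_⟩
    by_contra hcon
    exact h (v1 γ (not_lt.mp hcon) i k hγ)
  have v2 : ∀ γ : H.root, pr γ α = -1 → Van B (toEnd K L V z) γ := by
    intro γ h
    obtain ⟨i, hi⟩ := hy.exists_neg ((rootSystem H).reflectionPerm α γ)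
    rw [hy.wz_refl, hy.pr_symm α γ, h] at hi
    have m1 := hy.wz_mem i γ
    have m2 := hy.wz_mem i α
    have hc : (hy.wz i γ = -1 ∧ hy.wz i α = 0) ∨ (hy.wz i γ = 0 ∧ hy.wz i α = -1) := by omega
    rcases hc with ⟨h1, h2⟩ | ⟨h1, h2⟩
    · obtain ⟨j1, hj1⟩ := hy.exRel h1
      have a1 := hy.rel_wz hj1 α
      rw [h, h2] at a1
      obtain ⟨j2, hj2⟩ := hy.exRel (α := α) (i := j1) (by omega)
      have a2 := (hy.rel_self hj2).2
      have h3 : en B (toEnd K L V u * toEnd K L V z) i j2 = 0 := by rw [huz, en_zero]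
      rw [en_mul, Finset.sum_eq_single j1] at h3
      · exact hy.van_of z hj1 ((mul_eq_zero.mp h3).resolve_right (hU j1 j2 hj2))
      · intro k _ hk
        by_contra hne
        have h4 : en B (toEnd K L V z) i k ≠ 0 := fun h => hne (by rw [h, zero_mul])
        have h5 : en B (toEnd K L V u) k j2 ≠ 0 := fun h => hne (by rw [h, mul_zero])
        obtain ⟨δ, hδ, hδα⟩ := zk i k h4
        have r1 := hy.rel_wz hδ α
        have m3 := hy.wz_mem k α
        have hkj : k ≠ j2 := by rintro rfl; omega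
        obtain ⟨ε, hε⟩ := hy.support u hkj h5
        have r2 := hy.rel_wz hε α
        have h6 : ε = α := hy.root_two (by omega)
        rw [h6] at hε
        exact hk (hy.left hε hj2)
      · intro h; exact absurd (Finset.mem_univ _) h
    · obtain ⟨j1, hj1⟩ := hy.exRel h2
      have a1 := hy.rel_wz hj1 γ
      rw [hy.pr_symm α γ, h, h1] at a1
      obtain ⟨j2, hj2⟩ := hy.exRel (α := γ) (i := j1) (by omega)
      have a2 := (hy.rel_self hj1).2
      have a3 := hy.rel_wz hj2 α
      rw [h, a2] at a3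
      have h3 : en B (toEnd K L V z * toEnd K L V u) i j2 = 0 := by rw [hzu, en_zero]
      rw [en_mul, Finset.sum_eq_single j1] at h3
      · exact hy.van_of z hj2 ((mul_eq_zero.mp h3).resolve_left (hU i j1 hj1))
      · intro k _ hk
        by_contra hne
        have h4 : en B (toEnd K L V u) i k ≠ 0 := fun h => hne (by rw [h, zero_mul])
        have h5 : en B (toEnd K L V z) k j2 ≠ 0 := fun h => hne (by rw [h, mul_zero])
        obtain ⟨δ, hδ, hδα⟩ := zk k j2 h5
        have r1 := hy.rel_wz hδ α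
        have m3 := hy.wz_mem k α
        have hkj : i ≠ k := by rintro rfl; omega
        obtain ⟨ε, hε⟩ := hy.support u hkj h4
        have r2 := hy.rel_wz hε α
        have h6 : ε = α := hy.root_two (by omega)
        rw [h6] at hε
        exact hk (hy.right hε hj1)
      · intro h; exact absurd (Finset.mem_univ _) h
  have zk2 : ∀ i k, en B (toEnd K L V z) i k ≠ 0 → Rel B (ng α) i k := by
    intro i k h
    obtain ⟨δ, hδ, hδα⟩ := zk i k h
    rcases hy.pr_mem δ α with h1 | h1 | h1 | h1 | h1
    · rwa [← hy.root_neg_two h1]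
    · exact absurd (v2 δ h1 i k hδ) h
    all_goals omega
  apply en_ext B
  intro i j
  rw [en_zero]
  by_contra hne
  have hr := zk2 i j hne
  have hr' : Rel B α j i := fun h => by rw [hr h, ng_apply]; ring
  have h3 : en B (toEnd K L V u * toEnd K L V z) i i = 0 := by rw [huz, en_zero]
  rw [en_mul, Finset.sum_eq_single j] at h3
  · exact (mul_ne_zero hne (hU j i hr')) h3
  · intro k _ hk
    by_contra hne2
    have h4 : en B (toEnd K L V z) i k ≠ 0 := fun h => hne2 (by rw [h, zero_mul])
    exact hk (hy.right (zk2 i k h4) hr)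
  · intro h; exact absurd (Finset.mem_univ _) h

/-- A nonzero element of square zero has a component. -/
lemma exists_comp {x : L} (hxx : toEnd K L V x * toEnd K L V x = 0) (hx0 : toEnd K L V x ≠ 0) :
    ∃ (α : H.root) (e f : L) (c : K), Tri V α e f ∧ c ≠ 0 ∧
      toEnd K L V f * toEnd K L V x * toEnd K L V f = c • toEnd K L V f := by
  classical
  have h1 : ∃ i j, i ≠ j ∧ en B (toEnd K L V x) i j ≠ 0 := by
    by_contra! hcon
    apply hx0
    apply en_ext B
    intro i j
    rw [en_zero]
    by_cases hij : i = j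
    · subst hij
      have h1 : en B (toEnd K L V x * toEnd K L V x) i i = 0 := by rw [hxx, en_zero]
      rw [en_mul, Finset.sum_eq_single i] at h1
      · exact mul_self_eq_zero.mp h1
      · intro k _ hk
        rw [hcon i k (Ne.symm hk), zero_mul]
      · intro h; exact absurd (Finset.mem_univ _) h
    · exact hcon i j hij
  obtain ⟨i, j, hij, hne⟩ := h1
  obtain ⟨α, hα⟩ := hy.support x hij hne
  obtain ⟨e, f, ht⟩ := hy.exists_Tri α
  obtain ⟨c, h2, h3⟩ := hy.comp ht x
  refine ⟨α, e, f, c, ht, ?_, h2⟩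
  rintro rfl
  exact hne (by rw [h3 i j hα, zero_mul])

open Classical in
theorem rank_eq (hQ : ∀ α β : H.root, pr α β = 0 → ∃ i, hy.wz i α = 1 ∧ hy.wz i β = -1)
    {x : L} (hxx : toEnd K L V x * toEnd K L V x = 0) (hx0 : toEnd K L V x ≠ 0) :
    ∃ α : H.root, rk (toEnd K L V x) =
      (Finset.univ.filter (fun i => B.w i (coroot α.1) = 1)).card := by
  obtain ⟨α, e, f, c, ht, hc, hfxf⟩ := hy.exists_comp hxx hx0
  refine ⟨ng α, ?_⟩
  have hf0 : f ≠ 0 := by
    rintro rfl
    exact hy.F_ne ht (map_zero _)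
  rw [← TR.rank_root B hy.sq (ng α) ht.hf hf0]
  set y : L := c⁻¹ • x with hy'
  have hyx : toEnd K L V x = c • toEnd K L V y := by
    rw [hy', map_smul, smul_smul, mul_inv_cancel₀ hc, one_smul]
  set F := toEnd K L V f with hF
  set Y := toEnd K L V y with hY
  have hFYF : F * Y * F = F := by
    rw [hY, hy', map_smul, mul_smul_comm, smul_mul_assoc, hfxf, smul_smul, inv_mul_cancel₀ hc,
      one_smul]
  have hYY : Y * Y = 0 := by
    rw [hY, hy', map_smul, smul_mul_assoc, mul_smul_comm, hxx, smul_zero, smul_zero]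
  set u : L := (-(1 / 2 : K)) • ⁅y, ⁅y, f⁆⁆ with hu
  have hU : toEnd K L V u = Y * F * Y := by
    rw [hu, map_smul, LieHom.map_lie, LieHom.map_lie, LieRing.of_associative_ring_bracket,
      LieRing.of_associative_ring_bracket, ← hY, ← hF]
    have h1 : Y * (Y * F - F * Y) - (Y * F - F * Y) * Y =
        (Y * Y) * F + F * (Y * Y) - (Y * F * Y + Y * F * Y) := by noncomm_ring
    rw [h1, hYY, zero_mul, mul_zero, add_zero, zero_sub, ← two_smul K, smul_neg, neg_smul,
      neg_neg, smul_smul]
    norm_num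
  have hZ : toEnd K L V (y - u) = Y - Y * F * Y := by rw [map_sub, hU]
  have h0 : toEnd K L V (y - u) = 0 := by
    refine hy.zero_of hQ ht (z := y - u) (u := u) ?_ ?_ ?_ ?_ ?_ ?_
    · rw [hZ, ← hF, sub_mul, mul_assoc Y F Y, mul_assoc, hFYF, sub_self]
    · rw [hZ, ← hF, mul_sub, ← mul_assoc F, ← mul_assoc F, hFYF, sub_self]
    · rw [hZ]
      have h1 : (Y - Y * F * Y) * (Y - Y * F * Y) =
          Y * Y - (Y * Y) * F * Y - Y * F * (Y * Y) + Y * F * (Y * Y) * F * Y := by noncomm_ring
      rw [h1, hYY]; simp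
    · rw [hZ, hU]
      have h1 : Y * F * Y * (Y - Y * F * Y) = Y * F * (Y * Y) - Y * F * (Y * Y) * F * Y := by
        noncomm_ring
      rw [h1, hYY]; simp
    · rw [hZ, hU]
      have h1 : (Y - Y * F * Y) * (Y * F * Y) = (Y * Y) * F * Y - Y * F * (Y * Y) * F * Y := by
        noncomm_ring
      rw [h1, hYY]; simp
    · rw [hU, ← hF]
      have h1 : F * (Y * F * Y) * F = (F * Y * F) * Y * F := by noncomm_ring
      rw [h1, hFYF, hFYF]
  rw [hZ] at h0
  have hYFY : Y = Y * F * Y := sub_eq_zero.mp h0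
  rw [hyx, rk_smul hc]
  apply le_antisymm
  · rw [hYFY]
    exact (rk_mul_le_left _ _).trans (rk_mul_le_right _ _)
  · rw [← hFYF]
    exact (rk_mul_le_left _ _).trans (rk_mul_le_right _ _)

end Hy

end UN.H52

namespace UN

open MTP MTP.MF Pool.Agent.Helper54.MT

variable {K : Type*} [Field K] [CharZero K] [IsAlgClosed K] {V : Type*} [AddCommGroup V]
  [Module K V] [FiniteDimensional K V]
variable {L : LieSubalgebra K (Module.End K V)} [IsKilling K L] {H : LieSubalgebra K L}
  [H.IsCartanSubalgebra] {I : Type*} [Fintype I] (B : WB (V := V) H I)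

open Classical in
/-- LC -/
theorem rank_of_sq_zero (hinj : Function.Injective B.w)
    (hsq : ∀ (α : H.root) (x : L), x ∈ rootSpace H α.1 →
      toEnd K L V x * toEnd K L V x = 0)
    (hsl : ∀ α β : H.root, α ≠ β → (rootSystem H).root α ≠ -(rootSystem H).root β →
      (rootSystem H).pairingIn ℤ α β = -1 ∨ (rootSystem H).pairingIn ℤ α β = 0 ∨
      (rootSystem H).pairingIn ℤ α β = 1)
    (hQ : ∀ α β : H.root, (rootSystem H).pairingIn ℤ α β = 0 →
      ∃ i, B.w i (coroot α.1) = 1 ∧ B.w i (coroot β.1) = -1)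
    {N : Module.End K V} (hN : N ∈ L) (hNN : N * N = 0) (hN0 : N ≠ 0) :
    ∃ α : H.root, rk N = (Finset.univ.filter (fun i => B.w i (coroot α.1) = 1)).card := by
  have hy : H52.Hy B :=
    { inj := hinj
      sq := hsq
      faith := by
        intro x hx
        apply Subtype.ext
        ext u
        exact LinearMap.congr_fun hx u
      sl := hsl }
  have hQ' : ∀ α β : H.root, H52.pr α β = 0 → ∃ i, hy.wz i α = 1 ∧ hy.wz i β = -1 := by
    intro α β h
    obtain ⟨i, h1, h2⟩ := hQ α β h
    refine ⟨i, ?_, ?_⟩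
    · rw [hy.wz_cast] at h1
      exact_mod_cast h1
    · rw [hy.wz_cast] at h2
      exact_mod_cast h2
  have hT : toEnd K L V (⟨N, hN⟩ : L) = N := by
    ext u
    rfl
  obtain ⟨α, hα⟩ := hy.rank_eq hQ' (x := ⟨N, hN⟩) (by rw [hT, hNN]) (by rw [hT]; exact hN0)
  rw [hT] at hα
  exact ⟨α, hα⟩

end UN
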