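import Pool.Agent.Helper88.MT.Weights

/-!
Block LE1: when the set of weights of an irreducible representation of a semisimple Lie algebra
is symmetric, the representation carries a nonzero invariant bilinear form.
-/

open Module LieModule LieAlgebra LieAlgebra.IsKilling

attribute [local instance 100] LieRing.ofAssociativeRing

set_option linter.unusedVariables false

namespace UN

open MTP MTP.MF

namespace LE1

section act

variable {K : Type*} [Field K] {V : Type*} [AddCommGroup V] [Module K V]

/-- The action on the sum of a representation and its dual. -/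
def ac (z : Module.End K V) : Module.End K (V × Dual K V) := z.prodMap (-(z.dualMap))

lemma ac_fst (z : Module.End K V) (p : V × Dual K V) : (ac z p).1 = z p.1 := rfl

lemma ac_snd (z : Module.End K V) (p : V × Dual K V) (v : V) : (ac z p).2 v = - p.2 (z v) := rfl

lemma ac_add (y z : Module.End K V) : ac (y + z) = ac y + ac z := by
  apply LinearMap.ext
  intro p
  apply Prod.ext
  · rfl
  · apply LinearMap.ext
    intro v
    rw [ac_snd, LinearMap.add_apply, LinearMap.add_apply, Prod.snd_add, LinearMap.add_apply,
      ac_snd, ac_snd, map_add]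
    ring

lemma ac_smul (c : K) (z : Module.End K V) : ac (c • z) = c • ac z := by
  apply LinearMap.ext
  intro p
  apply Prod.ext
  · rfl
  · apply LinearMap.ext
    intro v
    change -(p.2 ((c • z) v)) = c • (-(p.2 (z v)))
    rw [LinearMap.smul_apply, map_smul, smul_neg]

lemma ac_zero : ac (0 : Module.End K V) = 0 := by
  apply LinearMap.ext
  intro p
  apply Prod.ext
  · rfl
  · apply LinearMap.ext
    intro v
    rw [ac_snd]
    simp

lemma ac_comm (z f : Module.End K V) (p : V × Dual K V) :
    ac z (ac f p) = ac f (ac z p) + ac (z * f - f * z) p := by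
  apply Prod.ext
  · rw [Prod.fst_add, ac_fst, ac_fst, ac_fst, ac_fst, ac_fst]
    simp
  · apply LinearMap.ext
    intro v
    rw [Prod.snd_add, LinearMap.add_apply, ac_snd, ac_snd, ac_snd, ac_snd, ac_snd,
      LinearMap.sub_apply, map_sub]
    simp [Module.End.mul_apply]

end act

variable {K : Type*} [Field K] [CharZero K] [IsAlgClosed K] {V : Type*} [AddCommGroup V]
  [Module K V] [FiniteDimensional K V]

/-- A generic additive functional. -/
lemma exists_generic {L : Type*} [LieRing L] [LieAlgebra K L] [FiniteDimensional K L]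
    [IsKilling K L] (H : LieSubalgebra K L) [H.IsCartanSubalgebra] :
    ∃ g : Dual K H →+ ℚ, ∀ α : H.root, g ((rootSystem H).root α) ≠ 0 := by
  let _i : Module ℚ (Dual K H) := Module.compHom (Dual K H) (algebraMap ℚ K)
  obtain ⟨f, hf⟩ := Module.exists_dual_forall_apply_ne_zero (K := ℚ)
    (fun α : H.root => (rootSystem H).root α) (fun α => (rootSystem H).ne_zero α)
  exact ⟨(f : Dual K H →+ ℚ), hf⟩

end LE1

open LE1

variable {K : Type*} [Field K] [CharZero K] [IsAlgClosed K] {V : Type*} [AddCommGroup V]
  [Module K V] [FiniteDimensional K V]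
variable {L : LieSubalgebra K (Module.End K V)} [IsKilling K L] {H : LieSubalgebra K L}
  [H.IsCartanSubalgebra] {I : Type*} [Fintype I] (B : WB (V := V) H I)

/-- LE1: a symmetric set of weights gives an invariant form. -/
theorem exists_form [Nontrivial V]
    (hirr : ∀ W : Submodule K V, (∀ z ∈ L, ∀ w ∈ W, z w ∈ W) → W = ⊥ ∨ W = ⊤)
    (hinj : Function.Injective B.w)
    (hsmall : ∀ (i : I) (α : H.root), B.w i (coroot α.1) = -1 ∨ B.w i (coroot α.1) = 0 ∨
      B.w i (coroot α.1) = 1)
    (hneg : ∀ i, ∃ j, B.w j = -B.w i) :
    ∃ b : LinearMap.BilinForm K V, b ≠ 0 ∧ ∀ z ∈ L, ∀ u v, b (z u) v = - b u (z v) := by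
  classical
  obtain ⟨g, hg⟩ := exists_generic H
  have hI : Nonempty I := by
    by_contra hcon
    rw [not_nonempty_iff] at hcon
    obtain ⟨u, hu⟩ := exists_ne (0 : V)
    exact hu (B.v.repr.injective (Finsupp.ext fun i => (hcon.false i).elim))
  obtain ⟨i0, hi0⟩ := Finite.exists_max (fun i => g (B.w i))
  obtain ⟨i1, hi1⟩ := hneg i0
  have hrel : ∀ {α : H.root} {x : L}, x ∈ rootSpace H α.1 → ∀ {i j : I},
      B.v.repr ((x : Module.End K V) (B.v i)) j ≠ 0 →
      B.w j = (rootSystem H).root α + B.w i := by
    intro α x hx i j hj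
    ext h
    exact B.coord_root hx hj h
  -- positive root vectors kill the top vector
  have hp1 : ∀ (α : H.root) (x : L), x ∈ rootSpace H α.1 → 0 < g ((rootSystem H).root α) →
      (x : Module.End K V) (B.v i0) = 0 := by
    intro α x hx h0
    apply B.v.repr.injective
    ext j
    rw [map_zero, Finsupp.zero_apply]
    by_contra hj
    have h1 := hrel hx hj
    have h2 := hi0 j
    rw [h1, map_add] at h2
    linarith
  -- and the dual top vector
  have hp2 : ∀ (α : H.root) (x : L), x ∈ rootSpace H α.1 → 0 < g ((rootSystem H).root α) →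
      ∀ v, B.v.coord i1 ((x : Module.End K V) v) = 0 := by
    intro α x hx h0 v
    have h1 : (B.v.coord i1) ∘ₗ (x : Module.End K V) = 0 := by
      apply B.v.ext
      intro k
      rw [LinearMap.comp_apply, LinearMap.zero_apply, Basis.coord_apply]
      by_contra hk
      have h2 := hrel hx hk
      obtain ⟨k', hk'⟩ := hneg k
      have h3 := hi0 k'
      have h4 : B.w k' = (rootSystem H).root α + B.w i0 := by
        rw [hk']
        rw [hi1] at h2
        have h5 : B.w k = -B.w i0 - (rootSystem H).root α := by rw [h2]; abel
        rw [h5]; abel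
      rw [h4, map_add] at h3
      linarith
    exact LinearMap.congr_fun h1 v
  -- negative root vectors
  have hn1 : ∀ (α : H.root) (x : L), x ∈ rootSpace H α.1 → g ((rootSystem H).root α) < 0 →
      ∀ v, B.v.coord i0 ((x : Module.End K V) v) = 0 := by
    intro α x hx h0 v
    have h1 : (B.v.coord i0) ∘ₗ (x : Module.End K V) = 0 := by
      apply B.v.ext
      intro k
      rw [LinearMap.comp_apply, LinearMap.zero_apply, Basis.coord_apply]
      by_contra hk
      have h2 := congrArg g (hrel hx hk)
      rw [map_add] at h2
      have h3 := hi0 k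
      linarith
    exact LinearMap.congr_fun h1 v
  have hn2 : ∀ (α : H.root) (x : L), x ∈ rootSpace H α.1 → g ((rootSystem H).root α) < 0 →
      (x : Module.End K V) (B.v i1) = 0 := by
    intro α x hx h0
    apply B.v.repr.injective
    ext j
    rw [map_zero, Finsupp.zero_apply]
    by_contra hj
    have h1 := congrArg g (hrel hx hj)
    obtain ⟨j', hj'⟩ := hneg j
    have h2 := hi0 j'
    rw [hj', map_neg] at h2
    rw [map_add, hi1, map_neg] at h1
    linarith
  -- the submodule generated by the diagonal top vector
  let p0 : V × Dual K V := (B.v i0, B.v.coord i1)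
  let F : Set (Submodule K (V × Dual K V)) := {W | p0 ∈ W ∧ ∀ (α : H.root) (x : L),
    x ∈ rootSpace H α.1 → g ((rootSystem H).root α) < 0 → ∀ u ∈ W, ac (x : Module.End K V) u ∈ W}
  let U : Submodule K (V × Dual K V) := sInf F
  have hU0 : p0 ∈ U := by
    rw [Submodule.mem_sInf]
    exact fun W hW => hW.1
  have hUn : ∀ (α : H.root) (x : L), x ∈ rootSpace H α.1 → g ((rootSystem H).root α) < 0 →
      ∀ u ∈ U, ac (x : Module.End K V) u ∈ U := by
    intro α x hx h0 u hu
    rw [Submodule.mem_sInf] at hu ⊢
    exact fun W hW => hW.2 α x hx h0 u (hu W hW)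
  have hact0 : ∀ z : L, ac (z : Module.End K V) p0 ∈ U := by
    let Z : Submodule K L :=
      { carrier := {z | ac (z : Module.End K V) p0 ∈ U}
        add_mem' := by
          intro a b ha hb
          change ac ((a : Module.End K V) + (b : Module.End K V)) p0 ∈ U
          rw [ac_add, LinearMap.add_apply]
          exact U.add_mem ha hb
        zero_mem' := by
          change ac (0 : Module.End K V) p0 ∈ U
          rw [ac_zero, LinearMap.zero_apply]
          exact U.zero_mem
        smul_mem' := by
          intro c a ha
          change ac (c • (a : Module.End K V)) p0 ∈ U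
          rw [ac_smul, LinearMap.smul_apply]
          exact U.smul_mem c ha }
    intro z
    refine root_induction (U := Z) (H := H) ?_ z
    intro χ x hx
    change ac (x : Module.End K V) p0 ∈ U
    by_cases hχ : χ.IsZero
    · have hxH : x ∈ H := by
        have h1 : x ∈ rootSpace H (0 : H → K) := by
          have h2 : (χ : H → K) = 0 := hχ
          rwa [h2] at hx
        rwa [rootSpace_zero_eq, LieSubalgebra.mem_toLieSubmodule] at h1
      have h1 : ac (x : Module.End K V) p0 = (B.w i0 ⟨x, hxH⟩) • p0 := by
        apply Prod.ext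
        · rw [ac_fst]
          exact B.lie_v i0 ⟨x, hxH⟩
        · have h3 : (B.v.coord i1) ∘ₗ (x : Module.End K V) =
              (B.w i1 ⟨x, hxH⟩) • B.v.coord i1 := by
            apply B.v.ext
            intro k
            rw [LinearMap.comp_apply]
            have h4 : (x : Module.End K V) (B.v k) = B.w k ⟨x, hxH⟩ • B.v k :=
              B.lie_v k ⟨x, hxH⟩
            rw [h4, map_smul, LinearMap.smul_apply, Basis.coord_apply, Basis.repr_self]
            by_cases hk : k = i1
            · subst hk; rfl
            · rw [Finsupp.single_eq_of_ne (Ne.symm hk), smul_zero, smul_zero]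
          apply LinearMap.ext
          intro v
          rw [ac_snd]
          have h5 := LinearMap.congr_fun h3 v
          rw [LinearMap.comp_apply, LinearMap.smul_apply, hi1, LinearMap.neg_apply] at h5
          change -(B.v.coord i1 ((x : Module.End K V) v)) = _
          rw [h5]
          change _ = B.w i0 ⟨x, hxH⟩ • B.v.coord i1 v
          module
      rw [h1]
      exact U.smul_mem _ hU0
    · let α : H.root := ⟨χ, by simpa using hχ⟩
      have hx' : x ∈ rootSpace H α.1 := hx
      rcases lt_trichotomy (g ((rootSystem H).root α)) 0 with h | h | h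
      · exact hUn α x hx' h p0 hU0
      · exact absurd h (hg α)
      · have h1 : ac (x : Module.End K V) p0 = 0 := by
          apply Prod.ext
          · exact hp1 α x hx' h
          · apply LinearMap.ext
            intro v
            rw [ac_snd]
            change -(B.v.coord i1 ((x : Module.End K V) v)) = 0
            rw [hp2 α x hx' h v, neg_zero]
        rw [h1]
        exact U.zero_mem
  have hact : ∀ z : L, ∀ u ∈ U, ac (z : Module.End K V) u ∈ U := by
    let W0 : Submodule K (V × Dual K V) :=
      { carrier := {u | u ∈ U ∧ ∀ z : L, ac (z : Module.End K V) u ∈ U}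
        add_mem' := by
          rintro a b ⟨ha, ha'⟩ ⟨hb, hb'⟩
          exact ⟨U.add_mem ha hb, fun z => by rw [map_add]; exact U.add_mem (ha' z) (hb' z)⟩
        zero_mem' := ⟨U.zero_mem, fun z => by rw [map_zero]; exact U.zero_mem⟩
        smul_mem' := by
          rintro c a ⟨ha, ha'⟩
          exact ⟨U.smul_mem c ha, fun z => by rw [map_smul]; exact U.smul_mem c (ha' z)⟩ }
    have hW0 : W0 ∈ F := by
      refine ⟨⟨hU0, hact0⟩, ?_⟩
      rintro α x hx h0 u ⟨hu, hu'⟩
      refine ⟨hUn α x hx h0 u hu, fun z => ?_⟩
      rw [ac_comm]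
      refine U.add_mem (hUn α x hx h0 _ (hu' z)) ?_
      have h1 := hu' ⁅z, x⁆
      exact h1
    have hle : U ≤ W0 := sInf_le hW0
    intro z u hu
    exact (hle hu).2 z
  have hC : ∀ u ∈ U, B.v.coord i0 u.1 = u.2 (B.v i1) := by
    let C : Submodule K (V × Dual K V) :=
      { carrier := {u | B.v.coord i0 u.1 = u.2 (B.v i1)}
        add_mem' := by
          intro a b ha hb
          change B.v.coord i0 (a.1 + b.1) = (a.2 + b.2) (B.v i1)
          rw [map_add, LinearMap.add_apply]
          exact congrArg₂ (· + ·) ha hb
        zero_mem' := by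
          change B.v.coord i0 0 = (0 : Dual K V) (B.v i1)
          rw [map_zero, LinearMap.zero_apply]
        smul_mem' := by
          intro c a ha
          change B.v.coord i0 (c • a.1) = (c • a.2) (B.v i1)
          rw [map_smul, LinearMap.smul_apply]
          exact congrArg (c • ·) ha }
    have hCF : C ∈ F := by
      refine ⟨?_, ?_⟩
      · change B.v.coord i0 (B.v i0) = B.v.coord i1 (B.v i1)
        simp
      · intro α x hx h0 u _
        change B.v.coord i0 ((x : Module.End K V) u.1) = - u.2 ((x : Module.End K V) (B.v i1))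
        rw [hn1 α x hx h0, hn2 α x hx h0, map_zero, neg_zero]
    have hle : U ≤ C := sInf_le hCF
    exact fun u hu => hle hu
  -- the projection to `V` is bijective
  have hinjU : ∀ φ : Dual K V, ((0 : V), φ) ∈ U → φ = 0 := by
    let D : Submodule K V :=
      { carrier := {v | ∀ φ : Dual K V, ((0 : V), φ) ∈ U → φ v = 0}
        add_mem' := by
          intro a b ha hb φ hφ
          rw [map_add, ha φ hφ, hb φ hφ, add_zero]
        zero_mem' := fun φ _ => map_zero φ
        smul_mem' := by
          intro c a ha φ hφ
          rw [map_smul, ha φ hφ, smul_zero] }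
    have hD : D = ⊤ := by
      rcases hirr D (by
        intro z hz v hv φ hφ
        have h1 := hact ⟨z, hz⟩ _ hφ
        have h2 : ac z ((0 : V), φ) = ((0 : V), -(φ ∘ₗ z)) := by
          apply Prod.ext
          · exact map_zero z
          · apply LinearMap.ext
            intro w
            rfl
        change ac z ((0 : V), φ) ∈ U at h1
        rw [h2] at h1
        have h3 := hv _ h1
        rw [LinearMap.neg_apply, LinearMap.comp_apply, neg_eq_zero] at h3
        exact h3) with h | h
      · exfalso
        have h1 : B.v i1 ∈ D := by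
          intro φ hφ
          have h2 := hC _ hφ
          rw [← h2]
          exact map_zero _
        rw [h, Submodule.mem_bot] at h1
        exact B.v.ne_zero i1 h1
      · exact h
    intro φ hφ
    apply LinearMap.ext
    intro v
    have h1 : v ∈ D := by rw [hD]; trivial
    exact h1 φ hφ
  have hsurU : ∀ v : V, ∃ φ : Dual K V, (v, φ) ∈ U := by
    have h1 : U.map (LinearMap.fst K V (Dual K V)) = ⊤ := by
      rcases hirr (U.map (LinearMap.fst K V (Dual K V))) (by
        rintro z hz _ ⟨u, hu, rfl⟩
        exact ⟨ac z u, hact ⟨z, hz⟩ u hu, rfl⟩) with h | h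
      · exfalso
        have h2 : B.v i0 ∈ U.map (LinearMap.fst K V (Dual K V)) := ⟨p0, hU0, rfl⟩
        rw [h, Submodule.mem_bot] at h2
        exact B.v.ne_zero i0 h2
      · exact h
    intro v
    have h2 : v ∈ U.map (LinearMap.fst K V (Dual K V)) := by rw [h1]; trivial
    obtain ⟨⟨a, φ⟩, hu, ha⟩ := h2
    have ha' : a = v := ha
    exact ⟨φ, ha' ▸ hu⟩
  have huniq : ∀ {v : V} {φ ψ : Dual K V}, (v, φ) ∈ U → (v, ψ) ∈ U → φ = ψ := by
    intro v φ ψ h1 h2
    have h3 := U.sub_mem h1 h2
    rw [Prod.mk_sub_mk, sub_self] at h3
    exact sub_eq_zero.mp (hinjU _ h3)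
  choose T hT using hsurU
  let b : LinearMap.BilinForm K V :=
    { toFun := T
      map_add' := by
        intro u v
        have h1 := U.add_mem (hT u) (hT v)
        rw [Prod.mk_add_mk] at h1
        exact huniq (hT (u + v)) h1
      map_smul' := by
        intro c u
        have h1 := U.smul_mem c (hT u)
        rw [Prod.smul_mk] at h1
        exact huniq (hT (c • u)) h1 }
  refine ⟨b, ?_, ?_⟩
  · intro hb
    have h1 : T (B.v i0) = B.v.coord i1 := huniq (hT _) hU0
    have h2 : T (B.v i0) = 0 := LinearMap.congr_fun hb (B.v i0)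
    rw [h2] at h1
    have h3 := LinearMap.congr_fun h1 (B.v i1)
    rw [LinearMap.zero_apply, Basis.coord_apply, Basis.repr_self, Finsupp.single_eq_same] at h3
    exact zero_ne_one h3
  · intro z hz u v
    have h1 := hact ⟨z, hz⟩ _ (hT u)
    have h2 : ac z (u, T u) = (z u, -((T u) ∘ₗ z)) := by
      apply Prod.ext
      · rfl
      · apply LinearMap.ext
        intro w
        rfl
    change ac z (u, T u) ∈ U at h1
    rw [h2] at h1
    have h3 : T (z u) = -((T u) ∘ₗ z) := huniq (hT (z u)) h1
    change T (z u) v = - T u (z v)
    rw [h3]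
    rfl

end UN
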