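import Pool.Agent.Helper52.UN.Ent

/-!
The action of root vectors on the weight vectors.
-/

open Module LieModule LieAlgebra LieAlgebra.IsKilling

attribute [local instance 100] LieRing.ofAssociativeRing

set_option linter.unusedSectionVars false

namespace UN.H52

open MTP MTP.MF Pool.Agent.Helper54.MT

variable {K : Type*} [Field K] [CharZero K] [IsAlgClosed K] {V : Type*} [AddCommGroup V]
  [Module K V] [FiniteDimensional K V]
  {L : Type*} [LieRing L] [LieAlgebra K L] [FiniteDimensional K L] [IsKilling K L]
  {H : LieSubalgebra K L} [H.IsCartanSubalgebra]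
  [LieRingModule L V] [LieModule K L V] {I : Type*} [Fintype I] {B : WB (V := V) H I}

/-- A triple for the root `α`. -/
structure Tri (V : Type*) [AddCommGroup V] [Module K V] [LieRingModule L V] [LieModule K L V]
    (α : H.root) (e f : L) : Prop where
  he : e ∈ rootSpace H α.1
  hf : f ∈ rootSpace H (ng α).1
  e0 : e ≠ 0
  hh : toEnd K L V ((coroot α.1 : H) : L) =
    toEnd K L V e * toEnd K L V f - toEnd K L V f * toEnd K L V e
  ee : toEnd K L V e * toEnd K L V e = 0
  ff : toEnd K L V f * toEnd K L V f = 0
  efe : toEnd K L V e * toEnd K L V f * toEnd K L V e = toEnd K L V e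
  fef : toEnd K L V f * toEnd K L V e * toEnd K L V f = toEnd K L V f

lemma coordW {χ : Weight K H L} {x : L} (hx : x ∈ rootSpace H χ) {i j : I}
    (hj : en B (toEnd K L V x) i j ≠ 0) (h : H) : B.w j h = χ h + B.w i h := by
  refine B.coord (u := ⁅x, B.v i⁆) ?_ hj
  have h1 : ⁅(h : L), x⁆ = χ h • x := lie_eq_smul_of_mem_rootSpace hx h
  rw [leibniz_lie, h1, B.lie_v, smul_lie, lie_smul, ← add_smul]

namespace Hy

variable (hy : Hy B)
include hy

lemma exists_Tri (α : H.root) : ∃ e f : L, Tri V α e f := by
  obtain ⟨e, f, ht, he, hf⟩ := exists_triple α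
  have hf' := mem_ng hf
  have hee := hy.sq α e he
  have hff := hy.sq (ng α) f hf'
  have hh : toEnd K L V ((coroot α.1 : H) : L) =
      toEnd K L V e * toEnd K L V f - toEnd K L V f * toEnd K L V e := by
    rw [← ht.lie_e_f, LieHom.map_lie, LieRing.of_associative_ring_bracket]
  refine ⟨e, f, he, hf', ht.e_ne_zero, hh, hee, hff, ?_, ?_⟩
  · set E := toEnd K L V e with hE
    set F := toEnd K L V f with hF
    have h4 : ⁅toEnd K L V ((coroot α.1 : H) : L), E⁆ = (2 : K) • E := by
      rw [hE, ← LieHom.map_lie, ht.lie_h_e_nsmul, ← ofNat_smul_eq_nsmul K, map_smul]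
    rw [LieRing.of_associative_ring_bracket, hh] at h4
    have h6 : (2 : K) • (E * F * E) = (2 : K) • E := by
      rw [← h4]
      have : (E * F - F * E) * E - E * (E * F - F * E) =
          E * F * E - F * (E * E) - (E * E) * F + E * F * E := by
        noncomm_ring
      rw [this, hee]
      simp [two_smul]
    exact smul_right_injective _ (two_ne_zero) h6
  · set E := toEnd K L V e with hE
    set F := toEnd K L V f with hF
    have h5 : ⁅toEnd K L V ((coroot α.1 : H) : L), F⁆ = - ((2 : K) • F) := by
      rw [hF, ← LieHom.map_lie, ht.lie_h_f_nsmul, ← ofNat_smul_eq_nsmul K, map_neg, map_smul]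
    rw [LieRing.of_associative_ring_bracket, hh] at h5
    have h7 : (2 : K) • (F * E * F) = (2 : K) • F := by
      have h8 : (E * F - F * E) * F - F * (E * F - F * E) =
          E * (F * F) - F * E * F - F * E * F + (F * F) * E := by
        noncomm_ring
      rw [h8, hff] at h5
      have h9 : -((2 : K) • (F * E * F)) = -((2 : K) • F) := by
        rw [← h5]
        simp [two_smul]
        abel
      exact neg_injective h9
    exact smul_right_injective _ (two_ne_zero) h7

lemma support (x : L) {i j : I} (hij : i ≠ j) (h : en B (toEnd K L V x) i j ≠ 0) :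
    ∃ γ : H.root, Rel B γ i j := by
  by_contra hcon
  apply h
  let U : Submodule K L :=
    { carrier := {z | en B (toEnd K L V z) i j = 0}
      add_mem' := by
        intro a b ha hb
        change en B (toEnd K L V (a + b)) i j = 0
        rw [map_add, en_add]
        have ha' : en B (toEnd K L V a) i j = 0 := ha
        have hb' : en B (toEnd K L V b) i j = 0 := hb
        rw [ha', hb', add_zero]
      zero_mem' := by
        change en B (toEnd K L V 0) i j = 0
        rw [map_zero, en_zero]
      smul_mem' := by
        intro c a ha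
        change en B (toEnd K L V (c • a)) i j = 0
        have ha' : en B (toEnd K L V a) i j = 0 := ha
        rw [map_smul, en_smul, ha', mul_zero] }
  refine root_induction (U := U) (H := H) ?_ x
  intro χ z hz
  by_contra hne
  have h1 := coordW hz hne
  by_cases h0 : χ.IsZero
  · apply hij
    apply hy.inj
    ext h
    have h2 : χ h = 0 := congrFun h0 h
    rw [h1 h, h2, zero_add]
  · exact hcon ⟨⟨χ, by simpa using h0⟩, fun h => h1 h⟩

lemma act_of_rel {γ : H.root} {x : L} (hx : x ∈ rootSpace H γ.1) {i j : I} (h : Rel B γ i j) :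
    toEnd K L V x (B.v i) = en B (toEnd K L V x) i j • B.v j := by
  apply B.v.repr.injective
  ext k
  rw [map_smul, Finsupp.smul_apply, B.v.repr_self]
  by_cases hk : en B (toEnd K L V x) i k = 0
  · by_cases hjk : k = j
    · subst hjk; simp [en]
    · rw [Finsupp.single_eq_of_ne hjk, smul_zero]; exact hk
  · have h1 : k = j := hy.right (fun h => coordW hx hk h) h
    subst h1
    simp [en]

lemma act_zero {γ : H.root} {x : L} (hx : x ∈ rootSpace H γ.1) {i : I}
    (hi : hy.wz i γ ≠ -1) : toEnd K L V x (B.v i) = 0 := by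
  apply B.v.repr.injective
  ext k
  rw [map_zero, Finsupp.zero_apply]
  by_contra hk
  have h1 : Rel B γ i k := fun h => coordW hx hk h
  exact hi (hy.rel_self h1).1

lemma lie_h (i : I) (α : H.root) :
    toEnd K L V ((coroot α.1 : H) : L) (B.v i) = (hy.wz i α : K) • B.v i := by
  have := B.lie_v i (coroot α.1)
  rw [hy.wz_cast] at this
  exact this

lemma fe {α : H.root} {e f : L} (ht : Tri V α e f) {i : I} (hi : hy.wz i α = -1) :
    toEnd K L V f (toEnd K L V e (B.v i)) = B.v i := by
  have h1 := hy.lie_h i α
  have h2 : toEnd K L V f (B.v i) = 0 := hy.act_zero ht.hf (by rw [hy.wz_ng]; omega)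
  rw [ht.hh, LinearMap.sub_apply, Module.End.mul_apply, Module.End.mul_apply, h2, map_zero,
    zero_sub, hi] at h1
  have h3 : -(toEnd K L V f (toEnd K L V e (B.v i))) = -(B.v i) := by
    rw [h1]; push_cast; module
  exact neg_injective h3

lemma ef {α : H.root} {e f : L} (ht : Tri V α e f) {i : I} (hi : hy.wz i α = 1) :
    toEnd K L V e (toEnd K L V f (B.v i)) = B.v i := by
  have h1 := hy.lie_h i α
  have h2 : toEnd K L V e (B.v i) = 0 := hy.act_zero ht.he (by omega)
  rw [ht.hh, LinearMap.sub_apply, Module.End.mul_apply, Module.End.mul_apply, h2, map_zero,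
    sub_zero, hi] at h1
  rw [h1]; push_cast; module

lemma exRel {α : H.root} {i : I} (hi : hy.wz i α = -1) : ∃ j, Rel B α i j := by
  obtain ⟨e, f, ht⟩ := hy.exists_Tri α
  have h1 := hy.fe ht hi
  have h2 : ∃ j, en B (toEnd K L V e) i j ≠ 0 := by
    by_contra! hcon
    have h3 : toEnd K L V e (B.v i) = 0 := by
      apply B.v.repr.injective
      ext k
      rw [map_zero, Finsupp.zero_apply]
      exact hcon k
    rw [h3, map_zero] at h1
    exact B.v.ne_zero i h1.symm
  obtain ⟨j, hj⟩ := h2
  exact ⟨j, fun h => coordW ht.he hj h⟩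

lemma exRel' {α : H.root} {i : I} (hi : hy.wz i α = 1) : ∃ j, Rel B α j i := by
  obtain ⟨j, hj⟩ := hy.exRel (α := ng α) (i := i) (by rw [hy.wz_ng, hi])
  exact ⟨j, fun h => by rw [hj h, ng_apply]; ring⟩

lemma en_ne {α : H.root} {e f : L} (ht : Tri V α e f) {i j : I} (h : Rel B α i j) :
    en B (toEnd K L V e) i j ≠ 0 := by
  intro h0
  have h1 := hy.fe ht (hy.rel_self h).1
  rw [hy.act_of_rel ht.he h, h0, zero_smul, map_zero] at h1
  exact B.v.ne_zero i h1.symm

lemma exists_neg (α : H.root) : ∃ i, hy.wz i α = -1 := by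
  by_contra! hcon
  obtain ⟨e, f, ht⟩ := hy.exists_Tri α
  apply ht.e0
  apply hy.faith
  apply B.v.ext
  intro i
  rw [hy.act_zero ht.he (hcon i), LinearMap.zero_apply]

/-- The component of an element at a root. -/
lemma comp {α : H.root} {e f : L} (ht : Tri V α e f) (z : L) :
    ∃ c : K, toEnd K L V f * toEnd K L V z * toEnd K L V f = c • toEnd K L V f ∧
      ∀ i j, Rel B α i j → en B (toEnd K L V z) i j = c * en B (toEnd K L V e) i j := by
  let U : Submodule K L :=
    { carrier := {z | ∃ c : K, toEnd K L V f * toEnd K L V z * toEnd K L V f = c • toEnd K L V f ∧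
        ∀ i j, Rel B α i j → en B (toEnd K L V z) i j = c * en B (toEnd K L V e) i j}
      add_mem' := by
        rintro a b ⟨c, h1, h2⟩ ⟨d, h3, h4⟩
        refine ⟨c + d, ?_, fun i j hij => ?_⟩
        · rw [map_add, mul_add, add_mul, h1, h3, add_smul]
        · rw [map_add, en_add, h2 i j hij, h4 i j hij, add_mul]
      zero_mem' := ⟨0, by rw [map_zero, mul_zero, zero_mul, zero_smul], fun i j _ => by
        rw [map_zero, en_zero, zero_mul]⟩
      smul_mem' := by
        rintro r a ⟨c, h1, h2⟩
        refine ⟨r * c, ?_, fun i j hij => ?_⟩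
        · rw [map_smul, mul_smul_comm, smul_mul_assoc, h1, smul_smul]
        · rw [map_smul, en_smul, h2 i j hij, mul_assoc] }
  refine root_induction (U := U) (H := H) ?_ z
  intro χ x hx
  by_cases hχ : χ = α.1
  · subst hχ
    obtain ⟨c, rfl⟩ := mem_line ht.he ht.e0 hx
    refine ⟨c, ?_, fun i j _ => ?_⟩
    · rw [map_smul, mul_smul_comm, smul_mul_assoc, ht.fef]
    · rw [map_smul, en_smul]
  · refine ⟨0, ?_, fun i j hij => ?_⟩
    · rw [zero_smul]
      apply en_ext B
      intro i j
      rw [en_zero, mul_assoc, en_mul]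
      refine Finset.sum_eq_zero fun k _ => ?_
      rw [en_mul, Finset.sum_mul]
      refine Finset.sum_eq_zero fun l _ => ?_
      by_contra hne
      have h1 : en B (toEnd K L V f) i l ≠ 0 := fun h => hne (by rw [h]; ring)
      have h2 : en B (toEnd K L V x) l k ≠ 0 := fun h => hne (by rw [h]; ring)
      have h3 : en B (toEnd K L V f) k j ≠ 0 := fun h => hne (by rw [h]; ring)
      have r1 : Rel B (ng α) i l := fun h => coordW ht.hf h1 h
      have r3 : Rel B (ng α) k j := fun h => coordW ht.hf h3 h
      have r2 := coordW hx h2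
      have s1 := (hy.rel_self r1).2
      have s3 := (hy.rel_self r3).1
      rw [hy.wz_ng] at s1 s3
      have h4 := r2 (coroot α.1)
      rw [hy.wz_cast, hy.wz_cast] at h4
      have h5 : χ (coroot α.1) = ((2 : ℤ) : K) := by
        have e1 : hy.wz k α = 1 := by omega
        have e2 : hy.wz l α = -1 := by omega
        rw [e1, e2] at h4
        push_cast at h4 ⊢
        linear_combination -h4
      by_cases h0 : χ.IsZero
      · have h6 : χ (coroot α.1) = 0 := congrFun h0 _
        rw [h6] at h5
        exact absurd h5.symm (by norm_num)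
      · let β : H.root := ⟨χ, by simpa using h0⟩
        have h7 : pr β α = 2 := by
          have h8 := pr_cast β α
          change χ (coroot α.1) = _ at h8
          rw [h5] at h8
          exact_mod_cast h8.symm
        exact hχ (congrArg Subtype.val (hy.root_two h7))
    · rw [zero_mul]
      by_contra hne
      apply hχ
      apply DFunLike.coe_injective
      funext h
      have h1 := coordW hx hne h
      rw [hij h] at h1
      exact (add_right_cancel h1).symm

end Hy

end UN.H52
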