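import Pool.Agent.Helper95.TR.B23

/-!
Matrix entries of the elements of a Lie algebra of operators with respect to a basis of weight
vectors, when the weights are different and all root vectors square to zero.
-/

open Module LieModule LieAlgebra LieAlgebra.IsKilling

attribute [local instance 100] LieRing.ofAssociativeRing

set_option linter.unusedSectionVars false

namespace UN.H52

open MTP MTP.MF Pool.Agent.Helper54.MT

variable {K : Type*} [Field K] [CharZero K] [IsAlgClosed K] {V : Type*} [AddCommGroup V]
  [Module K V] [FiniteDimensional K V]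
  {L : Type*} [LieRing L] [LieAlgebra K L] [FiniteDimensional K L] [IsKilling K L]
  {H : LieSubalgebra K L} [H.IsCartanSubalgebra]
  [LieRingModule L V] [LieModule K L V] {I : Type*} [Fintype I] (B : WB (V := V) H I)

/-- The entries of an operator in the basis of weight vectors. -/
noncomputable def en (z : Module.End K V) (i j : I) : K := B.v.repr (z (B.v i)) j

lemma en_mul (y z : Module.End K V) (i j : I) :
    en B (y * z) i j = ∑ k, en B z i k * en B y k j := by
  have h1 : z (B.v i) = ∑ k, en B z i k • B.v k := (B.v.sum_repr (z (B.v i))).symm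
  have h2 : (y * z) (B.v i) = ∑ k, en B z i k • y (B.v k) := by
    rw [Module.End.mul_apply, h1, map_sum]
    simp_rw [map_smul]
  rw [en, h2, map_sum, Finsupp.coe_finsetSum, Finset.sum_apply]
  refine Finset.sum_congr rfl fun k _ => ?_
  rw [map_smul, Finsupp.smul_apply, smul_eq_mul]
  rfl

lemma en_ext {y z : Module.End K V} (h : ∀ i j, en B y i j = en B z i j) : y = z := by
  apply B.v.ext
  intro i
  apply B.v.repr.injective
  ext j
  exact h i j

lemma en_zero (i j : I) : en B (0 : Module.End K V) i j = 0 := by simp [en]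

lemma en_add (y z : Module.End K V) (i j : I) : en B (y + z) i j = en B y i j + en B z i j := by
  simp [en]

lemma en_smul (c : K) (z : Module.End K V) (i j : I) : en B (c • z) i j = c * en B z i j := by
  simp [en]

/-- The weight of `j` is the weight of `i` plus the root. -/
def Rel (γ : H.root) (i j : I) : Prop := ∀ h : H, B.w j h = γ.1 h + B.w i h

/-- The standing assumptions. -/
structure Hy : Prop where
  inj : Function.Injective B.w
  sq : ∀ (α : H.root) (x : L), x ∈ rootSpace H α.1 → toEnd K L V x * toEnd K L V x = 0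
  faith : ∀ x : L, toEnd K L V x = 0 → x = 0
  sl : ∀ α β : H.root, α ≠ β → (rootSystem H).root α ≠ -(rootSystem H).root β →
      (rootSystem H).pairingIn ℤ α β = -1 ∨ (rootSystem H).pairingIn ℤ α β = 0 ∨
      (rootSystem H).pairingIn ℤ α β = 1

/-- The integral pairing. -/
noncomputable def pr (γ α : H.root) : ℤ := (rootSystem H).pairingIn ℤ γ α

lemma pr_cast (γ α : H.root) : γ.1 (coroot α.1) = (pr γ α : K) := by
  have h := (rootSystem H).algebraMap_pairingIn ℤ γ α
  rw [rootSystem_pairing_apply] at h
  simpa [pr] using h.symm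

lemma pr_self (α : H.root) : pr α α = 2 := (rootSystem H).pairingIn_same ℤ α

/-- The negative of a root. -/
noncomputable def ng (α : H.root) : H.root := (rootSystem H).reflectionPerm α α

lemma refl_apply (α γ : H.root) (h : H) :
    ((rootSystem H).reflectionPerm α γ).1 h = γ.1 h - (pr γ α : K) * α.1 h := by
  have h1 : (rootSystem H).root ((rootSystem H).reflectionPerm α γ) =
      (rootSystem H).root γ - (rootSystem H).pairing γ α • (rootSystem H).root α := by
    rw [RootPairing.root_reflectionPerm, RootPairing.reflection_apply_root]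
  have h2 := LinearMap.congr_fun h1 h
  rw [rootSystem_pairing_apply, pr_cast] at h2
  exact h2

lemma refl_coroot (α γ : H.root) :
    coroot ((rootSystem H).reflectionPerm α γ).1 = coroot γ.1 - (pr α γ : K) • coroot α.1 := by
  have h1 : (rootSystem H).coroot ((rootSystem H).reflectionPerm α γ) =
      (rootSystem H).coroot γ - (rootSystem H).pairing α γ • (rootSystem H).coroot α := by
    rw [RootPairing.coroot_reflectionPerm, RootPairing.coreflection_apply_coroot]
  rw [rootSystem_pairing_apply, pr_cast] at h1
  exact h1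

lemma ng_apply (α : H.root) (h : H) : (ng α).1 h = - α.1 h := by
  rw [ng, refl_apply, pr_self]; push_cast; ring

lemma ng_coroot (α : H.root) : coroot (ng α).1 = - coroot α.1 := by
  rw [ng, refl_coroot, pr_self]; push_cast; module

lemma root_eq_of {α β : H.root} (h : ∀ x : H, α.1 x = β.1 x) : α = β := by
  apply Subtype.ext
  apply DFunLike.coe_injective
  funext x
  exact h x

lemma ng_ng (α : H.root) : ng (ng α) = α :=
  root_eq_of fun x => by rw [ng_apply, ng_apply, neg_neg]

lemma pr_ng_left (α β : H.root) : pr (ng α) β = - pr α β := by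
  have h := pr_cast (ng α) β
  rw [ng_apply, pr_cast] at h
  exact_mod_cast h.symm

lemma pr_ng_right (α β : H.root) : pr α (ng β) = - pr α β := by
  have h := pr_cast α (ng β)
  rw [ng_coroot, map_neg, pr_cast] at h
  exact_mod_cast h.symm

lemma pr_zero {α β : H.root} (h : pr α β = 0) : pr β α = 0 := pair_zero _ h

lemma mem_ng {α : H.root} {f : L} (hf : f ∈ rootSpace H (-α.1)) : f ∈ rootSpace H (ng α).1 := by
  have h2 : ((ng α).1 : H → K) = ((-α.1 : Weight K H L) : H → K) := by
    funext x
    rw [ng_apply]; rfl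
  rw [h2]
  exact hf

namespace Hy

variable {B}
variable (hy : Hy B)
include hy

lemma sm (i : I) (γ : H.root) :
    ∃ a : ℤ, B.w i (coroot γ.1) = (a : K) ∧ (a = -1 ∨ a = 0 ∨ a = 1) :=
  (TR.small B hy.sq i).int γ

/-- The values of the weights on the coroots. -/
noncomputable def wz (i : I) (γ : H.root) : ℤ := (hy.sm i γ).choose

lemma wz_cast (i : I) (γ : H.root) : B.w i (coroot γ.1) = (hy.wz i γ : K) :=
  (hy.sm i γ).choose_spec.1

lemma wz_mem (i : I) (γ : H.root) : hy.wz i γ = -1 ∨ hy.wz i γ = 0 ∨ hy.wz i γ = 1 :=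
  (hy.sm i γ).choose_spec.2

lemma wz_ng (i : I) (γ : H.root) : hy.wz i (ng γ) = - hy.wz i γ := by
  have h := hy.wz_cast i (ng γ)
  rw [ng_coroot, map_neg, hy.wz_cast] at h
  exact_mod_cast h.symm

lemma wz_refl (i : I) (α γ : H.root) :
    hy.wz i ((rootSystem H).reflectionPerm α γ) = hy.wz i γ - pr α γ * hy.wz i α := by
  have h := hy.wz_cast i ((rootSystem H).reflectionPerm α γ)
  rw [refl_coroot, map_sub, map_smul, smul_eq_mul, hy.wz_cast, hy.wz_cast] at h
  exact_mod_cast h.symm

lemma rel_wz {γ : H.root} {i j : I} (h : Rel B γ i j) (α : H.root) :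
    hy.wz j α = pr γ α + hy.wz i α := by
  have h1 := h (coroot α.1)
  rw [hy.wz_cast, hy.wz_cast, pr_cast] at h1
  exact_mod_cast h1

lemma rel_self {γ : H.root} {i j : I} (h : Rel B γ i j) : hy.wz i γ = -1 ∧ hy.wz j γ = 1 := by
  have h1 := hy.rel_wz h γ
  rw [pr_self] at h1
  have := hy.wz_mem i γ
  have := hy.wz_mem j γ
  omega

lemma right {γ : H.root} {i j k : I} (h1 : Rel B γ i j) (h2 : Rel B γ i k) : j = k :=
  hy.inj (LinearMap.ext fun h => by rw [h1 h, h2 h])

lemma left {γ : H.root} {i j k : I} (h1 : Rel B γ i k) (h2 : Rel B γ j k) : i = j :=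
  hy.inj (LinearMap.ext fun h => by linear_combination h2 h - h1 h)

lemma root_two {δ α : H.root} (h : pr δ α = 2) : δ = α := by
  by_contra hne
  by_cases h2 : (rootSystem H).root δ = -(rootSystem H).root α
  · have h3 : δ = ng α := root_eq_of fun x => by
      rw [ng_apply]
      exact LinearMap.congr_fun h2 x
    rw [h3, pr_ng_left, pr_self] at h
    omega
  · have := hy.sl δ α hne h2
    change pr δ α = -1 ∨ pr δ α = 0 ∨ pr δ α = 1 at this
    omega

lemma pr_mem (δ α : H.root) : pr δ α = -2 ∨ pr δ α = -1 ∨ pr δ α = 0 ∨ pr δ α = 1 ∨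
    pr δ α = 2 := by
  by_cases hne : δ = α
  · subst hne; simp [pr_self]
  by_cases h2 : (rootSystem H).root δ = -(rootSystem H).root α
  · have h3 : δ = ng α := root_eq_of fun x => by
      rw [ng_apply]
      exact LinearMap.congr_fun h2 x
    rw [h3, pr_ng_left, pr_self]
    simp
  · have := hy.sl δ α hne h2
    change pr δ α = -1 ∨ pr δ α = 0 ∨ pr δ α = 1 at this
    omega

lemma root_neg_two {δ α : H.root} (h : pr δ α = -2) : δ = ng α := by
  have h1 : pr δ (ng α) = 2 := by rw [pr_ng_right, h]; norm_num
  exact hy.root_two h1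

lemma pr_symm (δ α : H.root) : pr δ α = pr α δ := by
  have h1 : pr δ α * len (rootSystem H) α = pr α δ * len (rootSystem H) δ :=
    pair_len (rootSystem H) δ α
  have p1 := len_pos (rootSystem H) α
  have p2 := len_pos (rootSystem H) δ
  rcases hy.pr_mem δ α with h | h | h | h | h
  · rw [hy.root_neg_two h, pr_ng_left, pr_ng_right]
  · rcases hy.pr_mem α δ with h' | h' | h' | h' | h'
    · rw [hy.root_neg_two h', pr_ng_left, pr_ng_right]
    · rw [h, h']
    · rw [h, h'] at h1; nlinarith
    · rw [h, h'] at h1; nlinarith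
    · rw [hy.root_two h']
  · rw [h, pr_zero h]
  · rcases hy.pr_mem α δ with h' | h' | h' | h' | h'
    · rw [hy.root_neg_two h', pr_ng_left, pr_ng_right]
    · rw [h, h'] at h1; nlinarith
    · rw [h, h'] at h1; nlinarith
    · rw [h, h']
    · rw [hy.root_two h']
  · rw [hy.root_two h]

end Hy

end UN.H52
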